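import Mathlib
import Pool.Agent.Y733.VR.Final

set_option autoImplicit false

/-!
# Vojta's conjecture for algebraic points: the exceptional set depends on the degree bound

`k` is any number field, `X = (ℙ¹)^n`, `D` is the sum of the `3n` fibres `x i = 0`, `x i = 1`,
`x i = ∞`, `A = O(1, …, 1)`, `K_X = -2 A`, and `S` is any finite set of places of `k` which
contains the archimedean ones. Outside `D`, a point of `X` of degree at most `r` over `k` is
given by `x : Fin n → F` with `x i ≠ 0, 1` and `F = k(x)` a field of degree at most `r` over `k`.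
A proper Zariski-closed subset of `X` lies in the zero set of a polynomial `G ≠ 0`.
-/

namespace Pool.Agent.Results.MP_71c16a_nt.DependsOnDegree

open NumberField IsDedekindDomain Module

/-- The local Weil function of the divisor `0 + 1 + ∞` of `ℙ¹` at `y ≠ 0, 1, ∞`, for the absolute
value `a`: `log⁺ |y| + log⁺ (1 / |y|) + log⁺ (1 / |y - 1|)`. -/
noncomputable def weil {F : Type} [Field F] (a : F → ℝ) (y : F) : ℝ :=
  Real.posLog (a y) + Real.posLog (a y)⁻¹ + Real.posLog (a (y - 1))⁻¹

/-- The height `h_A(x)` for `A = O(1, …, 1)`, normalised relative to `k`. -/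
noncomputable def height (k : Type) [Field k] {F : Type} [Field F] [NumberField F] [Algebra k F]
    {n : ℕ} (x : Fin n → F) : ℝ :=
  (∑ i, Height.logHeight₁ (x i)) / finrank k F

/-- The logarithmic discriminant `d_k(F)`. -/
noncomputable def logDisc (k : Type) [Field k] [NumberField k] (F : Type) [Field F]
    [NumberField F] [Algebra k F] : ℝ :=
  Real.log |(discr F : ℝ)| / finrank k F - Real.log |(discr k : ℝ)|

/-- The proximity function `∑_{ν ∈ S} λ_D(x, ν)`, normalised relative to `k`; the places in `S` are
the archimedean places of `k` and the primes in `S`. The sum is over all infinite places of `F`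
and the finite places `w` of `F` above a prime `p` in `S`, with their normalised absolute values. -/
noncomputable def proximity {k : Type} [Field k] [NumberField k]
    (S : Finset (HeightOneSpectrum (𝓞 k))) {F : Type} [Field F] [NumberField F] [Algebra k F]
    {n : ℕ} (x : Fin n → F) : ℝ :=
  ((∑ v : InfinitePlace F, v.mult * ∑ i, weil v (x i)) +
    ∑ᶠ w ∈ {w : FinitePlace F | ∃ p ∈ S, ∀ a ∈ p.asIdeal, w (algebraMap k F (a : k)) < 1},
      ∑ i, weil w (x i)) / finrank k F

/-- Vojta's inequality `h_K(x) + ∑_{ν ∈ S} λ_D(x, ν) ≤ ε h_A(x) + κ d_k(x) + C` on `(ℙ¹)^n`, for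
all points `x` of degree at most `r` over `k`, outside `D` and outside the zero set of `G`. The
conjecture has `κ = 1`. -/
def VojtaInequality {k : Type} [Field k] [NumberField k] (S : Finset (HeightOneSpectrum (𝓞 k)))
    {n : ℕ} (G : MvPolynomial (Fin n) k) (ε κ C : ℝ) (r : ℕ) : Prop :=
  ∀ (F : Type) [Field F] [NumberField F] [Algebra k F] (x : Fin n → F),
    finrank k F ≤ r → IntermediateField.adjoin k (Set.range x) = ⊤ →
    (∀ i, x i ≠ 0 ∧ x i ≠ 1) → MvPolynomial.aeval x G ≠ 0 →
    -2 * height k x + proximity S x ≤ ε * height k x + κ * logDisc k F + C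

/-- **The exceptional set depends on the degree bound `r`, for fixed `ε`.** Let `G ≠ 0`, `κ ≥ 0` and
let `κ < (1 - ε) m`. If Vojta's inequality (with `κ d_k` in place of `d_k`) holds for some constant
`C` for all points of `(ℙ¹)^n` of degree at most `r` over `k` outside `D` and outside the zero set
of `G`, and `2 ^ ((m - 1) J + 2) ≤ r`, then `G` has degree less than `2 ^ J` in fewer than `m` of
the `n` variables. -/
theorem result (k : Type) [Field k] [NumberField k] (S : Finset (HeightOneSpectrum (𝓞 k))) (n : ℕ)
    (G : MvPolynomial (Fin n) k) (hG : G ≠ 0) (ε κ C : ℝ) (hκ : 0 ≤ κ) (r m J : ℕ)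
    (hm : κ < (1 - ε) * m) (hr : 2 ^ ((m - 1) * J + 2) ≤ r)
    (hV : VojtaInequality S G ε κ C r) :
    (Finset.univ.filter fun i => G.degreeOf i < 2 ^ J).card < m :=
  Pool.Agent.Y733.VR.main k S n G hG r ε κ C hκ (fun F _ _ _ x => hV F x) m J hm hr

end Pool.Agent.Results.MP_71c16a_nt.DependsOnDegree
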