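import Mathlib
import Pool.Agent.Y557.OE.Set

/-!
# Vojta's inequality: one exceptional set for all curves over all number fields and all products

Let `K` be a number field, for example `ℚ`, and `a_1, …, a_q` distinct elements of `K`, `q ≥ 3`, for
example `q = 3`. We consider ALL number fields `k` containing `K`, all smooth projective curves
`C_1, …, C_m` over `k` and all finite maps `t_i : C_i → ℙ¹` of degree `N_i` over `k` which are
unramified outside the fibres over the `a_j`. By Belyi's theorem every curve over every number field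
has such maps, and every reduced divisor on `C_i` is contained in the fibres over the `a_j` for some
such map. Let `A_i` be the ring of the functions on `C_i` with poles only over `∞`: a Dedekind
domain, finite over `k[t]`. Let `y_{i j 0} = t - a_j, y_{i j 1}, …` be generators of the radical of
the ideal `(t - a_j)` of `A_i`, the ideal of the reduced fibre `F_{i j}` over `a_j`. Then
`2 + (deg K_{C_i}) / N_i = q - (∑_j dim (A_i / (y_{i j 0}, y_{i j 1}, …))) / N_i`.

Let `V = C_1 × … × C_m` and `F = ∑_i ∑_j pr_i^* F_{i j} + ∑_{(i, l) ∈ G} Z_{i l}`, where `G` is any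
set of pairs `i < l`, for example `∅`, and `Z_{i l}` is the divisor `t_i = t_l`. For `G ≠ ∅` the
divisor `F` does not have normal crossings, but its local heights are the sums of the local heights
`≥ 0` of its components, so that our inequality for `F` implies the inequality for every divisor
`D ≤ F` with normal crossings, in particular for `∑_i pr_i^* D_i` for all reduced divisors `D_i`.

The points `P` of `V` (not over `∞`) over a number field `L` containing `k` are the tuples of
homomorphisms `φ_i : A_i → L` over `k`. The local heights of `F_{i j}` and `Z_{i l}` at a place `v`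
are `max(0, - log max_l |y_{i j l}(P)|_v)` and
`max(0, log (max(|t_i|_v, 1) max(|t_l|_v, 1) / |t_i - t_l|_v))`.

The tuples `x = (x_1, …, x_m)` of elements of `K`, of all heights, are ordered by the largest of the
truncated counting functions of the `x_i` with respect to `[a_1] + … + [a_q]`; there are
`X ^ (2 m / q + o(1))` of them for which these are at most `log X`. We prove that for every `κ > 0`
there is a set `E ⊆ K ^ m`, which contains only `O(X ^ (2 m / q - ν))` of these tuples, such that
for all `k`, all `C_i`, `t_i` and `G`, with a constant `c` depending on these data, all points `P`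
of `V` over all tuples `x` not in `E`, all number fields `L` over which `P` is defined and all
finite sets `S` of rational primes satisfy
`m_S(F, P) + ∑_i (2 + (deg K_{C_i}) / N_i - κ) h(x_i) ≤ d(L) + ∑_{p ∈ S} log p + c`.
The height `h`, the proximity function `m_S` and the logarithmic discriminant `d(L)` are the absolute
ones: those relative to `k` divided by `[k : ℚ]`, up to the constant `log |disc k| / [k : ℚ]` for
the discriminant.
-/

set_option autoImplicit false

namespace Pool.Agent.Results.MP_71c16a_nt.OneExceptionalSet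

open Polynomial IsDedekindDomain NumberField

/-- The function `t` on the curve with the ring of functions `A`. -/
noncomputable def coord (k A : Type) [Field k] [CommRing A] [Algebra k[X] A] : A :=
  algebraMap k[X] A X

/-- The absolute logarithmic height of the point `x` of the line. -/
noncomputable def height {K : Type} [Field K] [NumberField K] (x : K) : ℝ :=
  Height.logHeight₁ x / Module.finrank ℚ K

/-- `max (0, - log max_l c_l)` -/
noncomputable def minusLog {s : ℕ} (c : Fin (s + 1) → ℝ) : ℝ := max 0 (-Real.log (⨆ l, c l))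

/-- The local height of the divisor `t_i = t_k` at a point where `|t_i| = c`, `|t_k| = c'` and
`|t_i - t_k| = d`. -/
noncomputable def diagonal (c c' d : ℝ) : ℝ := max 0 (Real.log (max c 1 * max c' 1 / d))

open Classical in
/-- The proximity function `m_S(F, P)`: the sum over the infinite places `w` (with
`mult w = [L_w : ℝ]`) and the primes `v` above the primes of `S` of the local heights of `F`, divided
by `[L : ℚ]`. The absolute values are normalised so that the product formula holds:
`|b|_v = N(v) ^ (- v(b))`. -/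
noncomputable def proximity {k : Type} [Field k] {m q : ℕ} {A : Fin m → Type}
    [∀ i, CommRing (A i)] [∀ i, Algebra k (A i)] [∀ i, Algebra k[X] (A i)] (S : Finset ℕ)
    (u : Fin m → Fin q → ℕ) (y : ∀ i j, Fin (u i j + 1) → A i) (G : Finset (Fin m × Fin m))
    {L : Type} [Field L] [NumberField L] [Algebra k L] (φ : ∀ i, A i →ₐ[k] L) : ℝ :=
  ((∑ w : InfinitePlace L, (w.mult : ℝ) *
      (∑ i, ∑ j, minusLog (fun l => w (φ i (y i j l))) +
        ∑ p ∈ G, diagonal (w (φ p.1 (coord k (A p.1)))) (w (φ p.2 (coord k (A p.2))))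
          (w (φ p.1 (coord k (A p.1)) - φ p.2 (coord k (A p.2)))))) +
    ∑ᶠ v : HeightOneSpectrum (𝓞 L), if ∃ p ∈ S, (p : 𝓞 L) ∈ v.asIdeal then
      (∑ i, ∑ j, minusLog (fun l => FinitePlace.mk v (φ i (y i j l))) +
        ∑ p ∈ G, diagonal (FinitePlace.mk v (φ p.1 (coord k (A p.1))))
          (FinitePlace.mk v (φ p.2 (coord k (A p.2))))
          (FinitePlace.mk v (φ p.1 (coord k (A p.1)) - φ p.2 (coord k (A p.2))))) else 0) /
    Module.finrank ℚ L

open Classical in
/-- The truncated counting function of `[a_1] + … + [a_q]` at the point `x` of the line over `K`: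
the sum of `log N(v)` over the primes `v` of `K` at which `x` and some `a_j` have the same
reduction. -/
noncomputable def counting {K : Type} [Field K] [NumberField K] {q : ℕ}
    (a : Fin q → K) (x : K) : ℝ :=
  ∑ᶠ v : HeightOneSpectrum (𝓞 K),
    if ∃ j, v.valuation K (x - a j) < max (v.valuation K (a j)) 1 * max (v.valuation K x) 1
    then Real.log (Ideal.absNorm v.asIdeal) else 0

/-- The (absolute) logarithmic discriminant `d(L) = log |disc L| / [L : ℚ]`. -/
noncomputable def logDisc (L : Type) [Field L] [NumberField L] : ℝ :=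
  Real.log |(NumberField.discr L : ℝ)| / Module.finrank ℚ L

/-- `q - (∑_j dim (A / (y_{j 0}, y_{j 1}, …))) / N`, where `N` is the rank of `A` over `k[t]`. -/
noncomputable def degree (k : Type) {A : Type} [Field k] [CommRing A] [Algebra k A]
    [Algebra k[X] A] {q : ℕ} {u : Fin q → ℕ} (y : ∀ j, Fin (u j + 1) → A) : ℝ :=
  q - (∑ j, (Module.finrank k (A ⧸ Ideal.span (Set.range (y j))) : ℝ)) / Module.finrank k[X] A

/-- The tuples `(x_1, …, x_m)` of elements of `K`, of whatever height, different from the `a_j`,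
for which the truncated counting functions of the `x_i` with respect to `[a_1] + … + [a_q]` are at
most `log X`. -/
def Tuples {K : Type} [Field K] [NumberField K] {q : ℕ} (m : ℕ) (a : Fin q → K) (X : ℝ) :
    Set (Fin m → K) :=
  {x | ∀ i, (∀ j, x i ≠ a j) ∧ counting a (x i) ≤ Real.log X}

open Classical in
theorem counting_eq {K : Type} [Field K] [NumberField K] {q : ℕ}
    (a : Fin q → K) {x : K} (hx : ∀ j, x ≠ a j) :
    counting a x = Pool.Agent.TH876.KR.counting (Pool.Agent.Y557.OE.noS K)
      (fun j => Pool.Agent.Y728.AK.pK (a j)) ![x, 1] := by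
  rw [← Pool.Agent.Y728.AK.cntK_eq ∅ a hx]
  unfold counting Pool.Agent.Y728.AK.cntK Pool.Agent.Y728.AK.NearK
  refine finsum_congr fun v => ?_
  by_cases h : ∃ j,
      v.valuation K (x - a j) < max (v.valuation K (a j)) 1 * max (v.valuation K x) 1
  · exact (if_pos h).trans (if_pos ⟨Finset.notMem_empty v, h⟩).symm
  · exact (if_neg h).trans (if_neg fun h' => h h'.2).symm

theorem form_iff {K : Type} [Field K] {a x : K} :
    Pool.Agent.TH876.KR.form (Pool.Agent.Y728.AK.pK a) ![x, 1] ≠ 0 ↔ x ≠ a := by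
  have e : Pool.Agent.TH876.KR.form (Pool.Agent.Y728.AK.pK a) ![x, 1] = a - x := by
    show a * 1 - 1 * x = a - x
    ring
  rw [e, sub_ne_zero]
  exact ne_comm

theorem tuples_eq {K : Type} [Field K] [NumberField K] {m q : ℕ} (a : Fin q → K) (X : ℝ) :
    Tuples m a X = Pool.Agent.Y728.MN.TupG (Pool.Agent.Y557.OE.noS K)
      (fun j => Pool.Agent.Y728.AK.pK (a j)) ∅ X := by
  ext x
  constructor
  · intro h
    refine ⟨fun i => ⟨fun j => form_iff.2 ((h i).1 j), ?_⟩, fun p hp =>
      absurd hp (Finset.notMem_empty p)⟩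
    rw [← counting_eq a (h i).1]
    exact (h i).2
  · rintro ⟨h, -⟩ i
    have h3 : ∀ j, x i ≠ a j := fun j => form_iff.1 ((h i).1 j)
    refine ⟨h3, ?_⟩
    rw [counting_eq a h3]
    exact (h i).2

open Classical in
theorem proximity_eq {k : Type} [Field k] {m q : ℕ} {A : Fin m → Type}
    [∀ i, CommRing (A i)] [∀ i, Algebra k (A i)] [∀ i, Algebra k[X] (A i)] (S : Finset ℕ)
    (u : Fin m → Fin q → ℕ) (y : ∀ i j, Fin (u i j + 1) → A i) (G : Finset (Fin m × Fin m))
    {L : Type} [Field L] [NumberField L] [Algebra k L] (φ : ∀ i, A i →ₐ[k] L)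
    (hf : ∀ i j, {v : HeightOneSpectrum (𝓞 L) |
      Pool.Agent.W223.AC.lamF (y i j) (φ i : A i →+* L) v ≠ 0}.Finite)
    (hG : ∀ p ∈ G, φ p.1 (coord k (A p.1)) ≠ φ p.2 (coord k (A p.2))) :
    proximity S u y G φ = (∑ i, ∑ j, (∑ w : InfinitePlace L, (w.mult : ℝ) *
      Pool.Agent.W223.AC.lamI (y i j) (φ i : A i →+* L) w +
        Pool.Agent.W223.AC.mS S (y i j) (φ i : A i →+* L)) +
      ∑ p ∈ G, Pool.Agent.Y728.MN.prG S (φ p.1 (coord k (A p.1))) (φ p.2 (coord k (A p.2)))) /
        Module.finrank ℚ L := by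
  unfold proximity
  refine congrArg (fun t : ℝ => t / Module.finrank ℚ L) ?_
  have e1 : ∑ w : InfinitePlace L, (w.mult : ℝ) *
      (∑ i, ∑ j, minusLog (fun l => w (φ i (y i j l))) +
        ∑ p ∈ G, diagonal (w (φ p.1 (coord k (A p.1)))) (w (φ p.2 (coord k (A p.2))))
          (w (φ p.1 (coord k (A p.1)) - φ p.2 (coord k (A p.2))))) =
      ∑ i, ∑ j, ∑ w : InfinitePlace L, (w.mult : ℝ) *
        Pool.Agent.W223.AC.lamI (y i j) (φ i : A i →+* L) w +
      ∑ p ∈ G, ∑ w : InfinitePlace L, (w.mult : ℝ) * max 0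
        (Pool.Agent.Y728.MN.lamI w (φ p.1 (coord k (A p.1))) (φ p.2 (coord k (A p.2)))) := by
    simp only [mul_add, Finset.mul_sum]
    rw [Finset.sum_add_distrib]
    congr 1
    · rw [Finset.sum_comm]
      refine Finset.sum_congr rfl fun i _ => ?_
      rw [Finset.sum_comm]
      rfl
    · rw [Finset.sum_comm]
      rfl
  have e2 : (∑ᶠ v : HeightOneSpectrum (𝓞 L), if ∃ p ∈ S, (p : 𝓞 L) ∈ v.asIdeal then
      (∑ i, ∑ j, minusLog (fun l => FinitePlace.mk v (φ i (y i j l))) +
        ∑ p ∈ G, diagonal (FinitePlace.mk v (φ p.1 (coord k (A p.1))))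
          (FinitePlace.mk v (φ p.2 (coord k (A p.2))))
          (FinitePlace.mk v (φ p.1 (coord k (A p.1)) - φ p.2 (coord k (A p.2))))) else 0) =
      ∑ i, ∑ j, Pool.Agent.W223.AC.mS S (y i j) (φ i : A i →+* L) +
      ∑ p ∈ G, ∑ᶠ v : HeightOneSpectrum (𝓞 L), if ∃ p ∈ S, (p : 𝓞 L) ∈ v.asIdeal then
        Pool.Agent.Y728.MN.lamF v (φ p.1 (coord k (A p.1))) (φ p.2 (coord k (A p.2))) else 0 := by
    have hfin : ∀ i j, (Function.support fun v : HeightOneSpectrum (𝓞 L) =>
        if ∃ p ∈ S, (p : 𝓞 L) ∈ v.asIdeal then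
          Pool.Agent.W223.AC.lamF (y i j) (φ i : A i →+* L) v else 0).Finite := by
      intro i j
      refine (hf i j).subset fun v hv => ?_
      rw [Function.mem_support] at hv
      intro h
      apply hv
      rw [h, ite_self]
    have hfinG : ∀ p ∈ G, (Function.support fun v : HeightOneSpectrum (𝓞 L) =>
        if ∃ p ∈ S, (p : 𝓞 L) ∈ v.asIdeal then
          Pool.Agent.Y728.MN.lamF v (φ p.1 (coord k (A p.1)))
            (φ p.2 (coord k (A p.2))) else 0).Finite := by
      intro p hp
      refine (Pool.Agent.Y728.MN.nr_fin (Pool.Agent.Y728.MN.form_pt_ne (hG p hp))).subset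
        fun v hv => ?_
      rw [Function.mem_support] at hv
      refine (Pool.Agent.Y728.MN.meet_iff v _ _).1
        (Pool.Agent.Y728.MN.meet_of_lamF (hG p hp) ?_)
      intro h
      apply hv
      rw [h, ite_self]
    have h1 : ∀ v : HeightOneSpectrum (𝓞 L), (if ∃ p ∈ S, (p : 𝓞 L) ∈ v.asIdeal then
        (∑ i, ∑ j, minusLog (fun l => FinitePlace.mk v (φ i (y i j l))) +
          ∑ p ∈ G, diagonal (FinitePlace.mk v (φ p.1 (coord k (A p.1))))
            (FinitePlace.mk v (φ p.2 (coord k (A p.2))))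
            (FinitePlace.mk v (φ p.1 (coord k (A p.1)) - φ p.2 (coord k (A p.2))))) else 0) =
        ∑ i, ∑ j, (if ∃ p ∈ S, (p : 𝓞 L) ∈ v.asIdeal then
          Pool.Agent.W223.AC.lamF (y i j) (φ i : A i →+* L) v else 0) +
        ∑ p ∈ G, (if ∃ p ∈ S, (p : 𝓞 L) ∈ v.asIdeal then
          Pool.Agent.Y728.MN.lamF v (φ p.1 (coord k (A p.1)))
            (φ p.2 (coord k (A p.2))) else 0) := by
      intro v
      split_ifs
      · congr 1
        refine Finset.sum_congr rfl fun p hp => ?_
        exact max_eq_right (Pool.Agent.Y728.MN.lamF_nonneg v (hG p hp))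
      · simp
    have h2 : (∑ᶠ v : HeightOneSpectrum (𝓞 L), (if ∃ p ∈ S, (p : 𝓞 L) ∈ v.asIdeal then
        (∑ i, ∑ j, minusLog (fun l => FinitePlace.mk v (φ i (y i j l))) +
          ∑ p ∈ G, diagonal (FinitePlace.mk v (φ p.1 (coord k (A p.1))))
            (FinitePlace.mk v (φ p.2 (coord k (A p.2))))
            (FinitePlace.mk v (φ p.1 (coord k (A p.1)) - φ p.2 (coord k (A p.2))))) else 0)) =
        ∑ i, ∑ j, (∑ᶠ v : HeightOneSpectrum (𝓞 L), if ∃ p ∈ S, (p : 𝓞 L) ∈ v.asIdeal then
          Pool.Agent.W223.AC.lamF (y i j) (φ i : A i →+* L) v else 0) +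
        ∑ p ∈ G, (∑ᶠ v : HeightOneSpectrum (𝓞 L), if ∃ p ∈ S, (p : 𝓞 L) ∈ v.asIdeal then
          Pool.Agent.Y728.MN.lamF v (φ p.1 (coord k (A p.1)))
            (φ p.2 (coord k (A p.2))) else 0) := by
      rw [finsum_congr h1, finsum_add_distrib, finsum_sum_comm, finsum_sum_comm]
      · congr 1
        refine Finset.sum_congr rfl fun i _ => ?_
        rw [finsum_sum_comm]
        exact fun j _ => hfin i j
      · exact fun p hp => hfinG p hp
      · intro i _
        refine (Set.finite_iUnion fun j => hfin i j).subset ?_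
        intro v hv
        rw [Function.mem_support] at hv
        by_contra hcon
        apply hv
        refine Finset.sum_eq_zero fun j _ => ?_
        by_contra h3
        exact hcon (Set.mem_iUnion.2 ⟨j, h3⟩)
      · refine (Set.finite_iUnion fun i => Set.finite_iUnion fun j => hfin i j).subset ?_
        intro v hv
        rw [Function.mem_support] at hv
        by_contra hcon
        apply hv
        refine Finset.sum_eq_zero fun i _ => Finset.sum_eq_zero fun j _ => ?_
        by_contra h3
        exact hcon (Set.mem_iUnion.2 ⟨i, Set.mem_iUnion.2 ⟨j, h3⟩⟩)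
      · refine (Set.Finite.biUnion (Finset.finite_toSet G) hfinG).subset ?_
        intro v hv
        rw [Function.mem_support] at hv
        by_contra hcon
        apply hv
        refine Finset.sum_eq_zero fun p hp => ?_
        by_contra h3
        exact hcon (Set.mem_biUnion (Finset.mem_coe.2 hp) h3)
    exact h2
  rw [e1, e2]
  unfold Pool.Agent.Y728.MN.prG
  rw [Finset.sum_add_distrib]
  simp only [Finset.sum_add_distrib]
  ring

/-- **Vojta's inequality, one exceptional set for all curves over all number fields and all products,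
points of all heights.** Let `K` be a number field, `a_1, …, a_q` distinct elements of `K`, `q ≥ 3`,
and `m ≥ 1`.

(1) The number of the tuples `x = (x_1, …, x_m)` of elements of `K`, of whatever height, for which
all `x_i` have truncated counting function `≤ log X` with respect to `[a_1] + … + [a_q]` is
`X ^ (2 m / q + o(1))`.

(2) For every `κ > 0` there is a set `E ⊆ K ^ m` such that at most `C X ^ (2 m / q - ν)` of these
tuples, for large `X` at most `X ^ (-ν)` times their number, are in `E`, and such that the following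
holds for all number fields `k` containing `K`. For `i = 1, …, m` let `A_i` be a Dedekind domain,
finite over `k[t]` and containing it (the ring of functions of a smooth affine curve over `k` which
is finite over the `t`-line), of rank `N_i`, and let `y_{i j 0} = t - a_j, y_{i j 1}, …` be elements
of the radical of the ideal `(t - a_j)` of `A_i`, for example generators. Let `G` be a set of pairs
`(i, l)` with `i < l`. Then there is a constant `c` such that for all tuples `x` of elements of `K`,
different from the `a_j`, which are not in `E`, all points `P` of the product of the curves with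
`t_i(P) = x_i` for all `i`, all number fields `L ⊇ k` over which `P` is defined and all finite sets
`S` of rational primes satisfy
`m_S(F, P) + ∑_i (q - (∑_j dim (A_i / (y_{i j 0}, y_{i j 1}, …))) / N_i - κ) h(x_i)`
`≤ d(L) + ∑_{p ∈ S} log p + c`. -/
theorem result (K : Type) [Field K] [NumberField K] (q : ℕ) (hq : 3 ≤ q) (a : Fin q → K)
    (ha : Function.Injective a) (m : ℕ) (hm : 0 < m) :
    (∀ δ : ℝ, 0 < δ →
      (∃ C : ℝ, ∀ X : ℝ, 1 ≤ X → (Tuples m a X).Finite ∧
        ((Tuples m a X).ncard : ℝ) ≤ C * X ^ (2 * m / (q : ℝ) + δ)) ∧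
      ∃ X₀ : ℝ, ∀ X : ℝ, X₀ ≤ X →
        X ^ (2 * m / (q : ℝ) - δ) ≤ ((Tuples m a X).ncard : ℝ)) ∧
    ∀ κ : ℝ, 0 < κ → ∃ E : Set (Fin m → K),
      (∃ ν C : ℝ, 0 < ν ∧ 0 < C ∧ ∀ X : ℝ, 1 ≤ X →
        ((E ∩ Tuples m a X).ncard : ℝ) ≤ C * X ^ (2 * m / (q : ℝ) - ν)) ∧
      (∃ ν X₀ : ℝ, 0 < ν ∧ ∀ X : ℝ, X₀ ≤ X →
        ((E ∩ Tuples m a X).ncard : ℝ) ≤ X ^ (-ν) * ((Tuples m a X).ncard : ℝ)) ∧
      ∀ (k : Type) [Field k] [NumberField k] [Algebra K k] (A : Fin m → Type)
        [∀ i, CommRing (A i)] [∀ i, IsDedekindDomain (A i)] [∀ i, Algebra k (A i)]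
        [∀ i, Algebra k[X] (A i)] [∀ i, IsScalarTower k k[X] (A i)]
        [∀ i, Module.Finite k[X] (A i)] [∀ i, FaithfulSMul k[X] (A i)]
        (u : Fin m → Fin q → ℕ) (y : ∀ i j, Fin (u i j + 1) → A i),
        (∀ i j, y i j 0 = coord k (A i) - algebraMap k (A i) (algebraMap K k (a j))) →
        (∀ i j l, y i j l ∈
          (Ideal.span {coord k (A i) - algebraMap k (A i) (algebraMap K k (a j))}).radical) →
        ∀ G : Finset (Fin m × Fin m), (∀ p ∈ G, p.1 < p.2) → ∃ c : ℝ,
          ∀ x : Fin m → K, x ∉ E → (∀ i j, x i ≠ a j) →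
          ∀ (L : Type) [Field L] [NumberField L] [Algebra K L] [Algebra k L]
            [IsScalarTower K k L] (φ : ∀ i, A i →ₐ[k] L),
            (∀ i, φ i (coord k (A i)) = algebraMap K L (x i)) →
            ∀ S : Finset ℕ, (∀ p ∈ S, p.Prime) →
              proximity S u y G φ + ∑ i, (degree k (y i) - κ) * height (x i) ≤
                logDisc L + ∑ p ∈ S, Real.log p + c := by
  classical
  have hS : (Pool.Agent.Y557.OE.noS K).Finite := Finset.finite_toSet _
  have ha' : ∀ i j, i ≠ j → Pool.Agent.TH876.KR.form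
      ((fun j => Pool.Agent.Y728.AK.pK (a j)) i) ((fun j => Pool.Agent.Y728.AK.pK (a j)) j) ≠ 0 :=
    fun i j hij => Pool.Agent.Y728.AK.formK_ne' fun h => hij (ha h)
  have hlow : ∀ δ : ℝ, 0 < δ → ∃ X₀ : ℝ, 1 ≤ X₀ ∧ ∀ X : ℝ, X₀ ≤ X →
      X ^ (2 * m / (q : ℝ) - δ) ≤ ((Tuples m a X).ncard : ℝ) := by
    intro δ hδ
    simp only [tuples_eq]
    exact Pool.Agent.Y728.MN.tup_low hq hm hS ha'
      (fun p hp => absurd hp (Finset.notMem_empty p)) δ hδ
  refine ⟨fun δ hδ => ⟨?_, ?_⟩, fun κ hκ => ?_⟩
  · simp only [tuples_eq]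
    exact Pool.Agent.Y728.MN.tup_all hq hm hS ha' ∅ δ hδ
  · obtain ⟨X0, -, h⟩ := hlow δ hδ
    exact ⟨X0, h⟩
  obtain ⟨E, hupp, hE⟩ := Pool.Agent.Y557.OE.one_exc K hm hq a ha (κ := κ / 2) (by positivity)
  have hupp' : ∃ ν C : ℝ, 0 < ν ∧ 0 < C ∧ ∀ X : ℝ, 1 ≤ X →
      ((E ∩ Tuples m a X).ncard : ℝ) ≤ C * X ^ (2 * m / (q : ℝ) - ν) := by
    simp only [tuples_eq]
    exact hupp
  refine ⟨E, hupp', ?_, ?_⟩
  · obtain ⟨ν, C, hν, hC, h1⟩ := hupp'
    obtain ⟨X0, hX0, h2⟩ := hlow (ν / 2) (by positivity)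
    exact ⟨ν / 4, _, by positivity, Pool.Agent.Y728.AK.ratio_of hν hC hX0 h1 h2⟩
  intro k _ _ _ A _ _ _ _ _ _ _ u y hy0 hyr G hG
  obtain ⟨c, hc⟩ := Pool.Agent.Y557.OE.coreV hq a u y hy0 hyr hG hκ
  obtain ⟨d, hd⟩ : ∃ d : ℝ, d = (Module.finrank ℚ K : ℝ) := ⟨_, rfl⟩
  have hd0 : 0 < d := by rw [hd]; exact_mod_cast Module.finrank_pos
  refine ⟨c / d, ?_⟩
  intro x hxE hxa L _ _ _ _ _ φ hφ S hS'
  obtain ⟨hinj, hnn⟩ := hE x hxE hxa
  obtain ⟨hfin, h0⟩ := hc x hxa hinj hnn L φ hφ
  have h1 := h0 S hS'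
  have hpr := proximity_eq S u y G φ hfin (fun p hp => by
    rw [hφ, hφ]
    intro h
    exact (hG p hp).ne (hinj ((algebraMap K L).injective h)))
  have hfd : FiniteDimensional K L := Module.Finite.of_restrictScalars_finite ℚ K L
  obtain ⟨mL, hmL⟩ : ∃ mL : ℝ, mL = (Module.finrank K L : ℝ) := ⟨_, rfl⟩
  have hm0 : 0 < mL := by rw [hmL]; exact_mod_cast Module.finrank_pos
  have htow : (Module.finrank ℚ L : ℝ) = d * mL := by
    rw [hd, hmL]
    exact_mod_cast (Module.finrank_mul_finrank ℚ K L).symm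
  obtain ⟨lL, hlL⟩ : ∃ lL : ℝ, lL = Real.log |(NumberField.discr L : ℝ)| := ⟨_, rfl⟩
  obtain ⟨Rs, hRs⟩ : ∃ Rs : ℝ, Rs = ∑ p ∈ S, Real.log p := ⟨_, rfl⟩
  obtain ⟨W0, hW0⟩ : ∃ W0 : ℝ, W0 = ∑ i, ∑ j, (∑ w : InfinitePlace L, (w.mult : ℝ) *
      Pool.Agent.W223.AC.lamI (y i j) (φ i : A i →+* L) w +
        Pool.Agent.W223.AC.mS S (y i j) (φ i : A i →+* L)) +
      ∑ p ∈ G, Pool.Agent.Y728.MN.prG S (φ p.1 (coord k (A p.1))) (φ p.2 (coord k (A p.2))) :=
    ⟨_, rfl⟩
  obtain ⟨R, hR⟩ : ∃ R : ℝ, R = ∑ i, ((q : ℝ) - (∑ j, (Module.finrank k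
      (A i ⧸ Ideal.span (Set.range (y i j))) : ℝ)) / Module.finrank k[X] (A i) - κ) *
        Height.logHeight₁ (x i) := ⟨_, rfl⟩
  have h2 : mL * R + W0 ≤ lL + d * mL * Rs + mL * c := by
    rw [hW0, hR, hlL, hRs, ← htow, hmL]
    exact h1
  have e1 : ∑ i, (degree k (y i) - κ) * height (x i) = R / d := by
    rw [hR, Finset.sum_div]
    refine Finset.sum_congr rfl fun i _ => ?_
    unfold degree height
    rw [← hd]
    ring
  rw [e1, hpr, ← hW0, ← hRs]
  unfold logDisc
  rw [← hlL, htow]
  have hdm : 0 < d * mL := mul_pos hd0 hm0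
  have h3 : (mL * R + W0) / (d * mL) ≤ (lL + d * mL * Rs + mL * c) / (d * mL) :=
    div_le_div_of_nonneg_right h2 hdm.le
  have e2 : (mL * R + W0) / (d * mL) = W0 / (d * mL) + R / d := by
    field_simp
    ring
  have e3 : (lL + d * mL * Rs + mL * c) / (d * mL) = lL / (d * mL) + Rs + c / d := by
    field_simp
  rw [e2, e3] at h3
  exact h3

end Pool.Agent.Results.MP_71c16a_nt.OneExceptionalSet
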