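import Mathlib
import Pool.Agent.Y734.I.HFin
import Pool.Agent.Y734.I.DM.Main
import Pool.Agent.Y734.I.STEP.Main
import Pool.Agent.Y734.I.NV.Main
import Pool.Agent.Y734.I.IND.Ind
import Pool.Agent.Y734.I.LG.Main
import Pool.Agent.Y734.I.GENS.Main
import Pool.Agent.Y734.I.UE.Ue
import Pool.Agent.Y734.I.ALGA.Main
import Pool.Agent.Y734.I.ALGB.Top
import Pool.Agent.Y734.I.ALGC.Main
import Pool.Agent.Y734.I.LGB.Main
import Pool.Agent.Y734.I.TOR.Tor
import Pool.Agent.Y734.I.FAC.Fac
import Pool.Agent.Y734.I.LINE.Line
import Pool.Agent.Y734.I.SIZE.Size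
import Pool.Agent.Y734.I.TRI.Main
import Pool.Agent.Y328.Cnc.Main
import Pool.Agent.Y734.I.FINA.Main
import Pool.Agent.Y734.I.FINB.Main
import Pool.Agent.Y734.I.LIN5.Main
import Pool.Agent.Y734.B.Main
import Pool.Agent.Y734.USST.Main
import Pool.Agent.Y734.BR2.Main
import Pool.Agent.Y734.HYP2.Main
import Pool.Agent.Y734.GROW.Main
import Pool.Agent.Y734.DIM.Main
import Pool.Agent.TH551.SU.Sst

/-!
# Integral points of degree at most two on the complement of lines in the plane

`X = ℙ²` over `k = ℚ`, `D` is a sum of `q` lines over `ℚ` in general position, `S` a finite set of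
places, and `r = 2`. As `d(x) ≤ 2 h(x) + O(1)` for points of degree at most two, Vojta's conjecture
implies for `q ≥ 6` that all but finitely many of the `(D, S)`-integral points of degree at most two
are in a proper closed subset `Z` which depends on `D` only. We prove this for all `q ≥ 7`, and for
`q = 6` unless the six lines are tangent to a conic; `Z` is a union of lines and conics over `ℚ`
which meet `D` in at most four points. For six lines tangent to a conic we prove that the integral
points are not Zariski dense, unless there is a linear involution `T` of the plane which permutes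
the six lines without fixing any of them; in this case the integral points `x` outside of a proper
closed subset have `T(x)` as conjugate point.

Proof. (1) Six lines which are not tangent to a conic. Let `x` and `x'` be conjugate and
`M = x x'ᵀ + x' xᵀ`. The six squares `H_i²` are a basis of the quadratic forms, so `M` is determined
by the norms `H_i(x) H_i(x')` of the values of the six forms, which are `S`-units up to a common
factor, and `det M = 0` is an equation between them. By the unit equation the closure of an infinite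
set of integral points contains a family `M(z) = ∑ z ^ w M_w` of singular symmetric matrices with
`H_i(M(z)) = κ_i z ^ (α_i)`. If two values occur among the exponents `α_i` then the conjugate points
are on a line with at most four points on `D`. If there are more, the equation `det M(z) = 0` shows
that there are three values, each for two of the lines, and a study of the possible first and last
terms of `M(z)` leads to a line through the three vertices of the pairs, or to a conic which is
tangent to four of the lines at four of the double points of `D`.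

(2) At least seven lines: the bound `m_S(D, x) ≤ (6 + ε) h(x) + C` of
`MP_651af7_nt.QuadraticPlaneUniform`, and the unit equation on the exceptional lines.

(3) Six lines tangent to a conic. Take the germs along an ultrafilter of a generic sequence of
integral points, with conjugates `P`, `Q`, and let `u_i = H_i(P) H_i(Q)`. The relation
between the squares is a relation between the `u_i`, and by the unit equation the `u_i` are
proportional in pairs, `u_1 = a u_2`, `u_3 = b u_4`, `u_5 = c u_6`. Let `V_1 = H_1 ∩ H_2`,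
`V_2 = H_3 ∩ H_4`, `V_3 = H_5 ∩ H_6`. If they are not collinear, `Q` is the image of `P` under a
quadratic transformation with centres `V_i`; one finds that the sides of the triangle
`V_1 V_2 V_3` also give `S`-units at `P`, and that the products `u_1, u_3, u_5` are multiplicatively
independent relative to the norm of a side, so that the transcendence degree would be three. If the
`V_i` are collinear then `Q = T(P)` for an involution `T` which permutes the lines.
-/

set_option autoImplicit false

namespace Pool.Agent.Results.MP_71c16a_nt.QuadraticIntegralPoints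

open NumberField IsDedekindDomain

variable {L : Type} [Field L] [NumberField L] {n : ℕ}

/-- The local Weil function of the divisor `F = 0`, `F` a form of degree `d` over `ℚ`, at the point
with homogeneous coordinates `x` over `L`, for the absolute value `a` of `L`. -/
noncomputable def weil (a : L → ℝ) (F : MvPolynomial (Fin (n + 1)) ℚ) (d : ℕ)
    (x : Fin (n + 1) → L) : ℝ :=
  Real.log ((⨆ j, a (x j)) ^ d / a (MvPolynomial.aeval x F))

/-- The proximity function `∑_{v ∈ S} λ_{D,v}(x)`, with absolute normalisation, where `S` consists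
of the archimedean place of `ℚ` and of the primes in `S`: the sum over all infinite places of `L`
and over the primes of `L` above the primes in `S`, divided by `[L : ℚ]`. -/
noncomputable def proximity (S : Finset ℕ) (F : MvPolynomial (Fin (n + 1)) ℚ) (d : ℕ)
    (x : Fin (n + 1) → L) : ℝ :=
  ((∑ w : InfinitePlace L, w.mult * weil w F d x) +
    ∑ᶠ v ∈ {v : HeightOneSpectrum (𝓞 L) | ∃ p ∈ S, (p : 𝓞 L) ∈ v.asIdeal},
      weil (FinitePlace.mk v) F d x) / Module.finrank ℚ L

/-- The absolute logarithmic height. -/
noncomputable def height (x : Fin (n + 1) → L) : ℝ :=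
  Height.logHeight x / Module.finrank ℚ L

/-- The linear form with coefficients `l`. -/
noncomputable def lin (l : Fin (n + 1) → ℚ) : MvPolynomial (Fin (n + 1)) ℚ :=
  ∑ j, MvPolynomial.C (l j) * MvPolynomial.X j

/-- Homogeneous coordinates `x` over `L` of a `(D, S)`-integral point, with constant `C`: it is off
the sum `D` of the lines `lin (H i) = 0` and `q h(x) ≤ ∑_{v ∈ S ∪ {∞}} λ_{D,v}(x) + C`. -/
structure IsIntegralPoint {q : ℕ} (H : Fin q → Fin 3 → ℚ) (S : Finset ℕ) (C : ℝ)
    (x : Fin 3 → L) : Prop where
  ne_zero : x ≠ 0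
  off : MvPolynomial.aeval x (∏ i, lin (n := 2) (H i)) ≠ 0
  le : (q : ℝ) * height (n := 2) x ≤ proximity (n := 2) S (∏ i, lin (H i)) q x + C

/-- `G = 0` is a line or a conic which meets the lines `lin (H i) = 0` in at most four points of
`ℙ²(ℂ)`: among any five common points two are equal. -/
structure FewPoints {q : ℕ} (H : Fin q → Fin 3 → ℚ) (G : MvPolynomial (Fin 3) ℚ) : Prop where
  ne_zero : G ≠ 0
  degree : G.IsHomogeneous 1 ∨ G.IsHomogeneous 2
  few : ∀ p : Fin 5 → Fin 3 → ℂ, (∀ k, p k ≠ 0 ∧ MvPolynomial.aeval (p k) G = 0 ∧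
    ∃ i, MvPolynomial.aeval (p k) (lin (n := 2) (H i)) = 0) → ∃ k l, k ≠ l ∧ ∃ c : ℂ, p k = c • p l

/-- The matrix `T` is a linear involution which permutes the lines `lin (H i) = 0` without fixing
any of them: the form `lin (H i)` composed with `T` is a multiple of `lin (H j)`, `j ≠ i`. -/
def IsSymmetry {q : ℕ} (H : Fin q → Fin 3 → ℚ) (T : Matrix (Fin 3) (Fin 3) ℚ) : Prop :=
  T * T = 1 ∧ ∀ i, ∃ j, j ≠ i ∧ ∃ a : ℚ, Matrix.vecMul (H i) T = a • H j

/-- Let `D` be the sum of `q ≥ 6` lines `lin (H i) = 0` of the plane over `ℚ`, any three of which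
have no common point. Then one of the following holds.

(1) There are finitely many lines and conics over `ℚ`, each with at most four points on `D`, such
that for all finite sets `S` of primes and all `C` all but finitely many of the `(D, S)`-integral
points of degree at most two are on these curves.

(2) `q = 6`, the squares of the six forms are linearly dependent (the lines are tangent to a
conic), and for all `S` and `C` there is a form `Z ≠ 0` such that for every number field `L` of
degree at most two and every `(D, S)`-integral point `x ∈ ℙ²(L)` with `Z(x) ≠ 0` there are a linear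
involution `T` which permutes the lines without fixing any of them and an automorphism `τ ≠ 1` of
`L` with `τ(x) = T(x)` in `ℙ²(L)`. -/
theorem result (q : ℕ) (hq : 6 ≤ q) (H : Fin q → Fin 3 → ℚ)
    (hH : ∀ I : Finset (Fin q), I.card = 3 → LinearIndependent ℚ (fun i : I => H i)) :
    (∃ 𝒢 : Finset (MvPolynomial (Fin 3) ℚ), (∀ G ∈ 𝒢, FewPoints H G) ∧
      ∀ S : Finset ℕ, (∀ p ∈ S, p.Prime) → ∀ C : ℝ, ∃ E : Finset (Fin 3 → ℂ),
        ∀ (L : Type) [Field L] [NumberField L], Module.finrank ℚ L ≤ 2 →
          ∀ x : Fin 3 → L, IsIntegralPoint H S C x →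
            (∃ G ∈ 𝒢, MvPolynomial.aeval x G = 0) ∨
              ∀ σ : L →+* ℂ, ∃ e ∈ E, ∃ c : ℂ, (fun j => σ (x j)) = c • e) ∨
    (q = 6 ∧
      ¬ LinearIndependent ℚ (fun i => fun jk : Fin 3 × Fin 3 => H i jk.1 * H i jk.2) ∧
      ∀ S : Finset ℕ, (∀ p ∈ S, p.Prime) → ∀ C : ℝ,
        ∃ (d : ℕ) (Z : MvPolynomial (Fin 3) ℚ), Z.IsHomogeneous d ∧ Z ≠ 0 ∧
          ∀ (L : Type) [Field L] [NumberField L], Module.finrank ℚ L ≤ 2 →
            ∀ x : Fin 3 → L, IsIntegralPoint H S C x → MvPolynomial.aeval x Z ≠ 0 →
              ∃ T : Matrix (Fin 3) (Fin 3) ℚ, IsSymmetry H T ∧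
                ∃ τ : L ≃ₐ[ℚ] L, τ ≠ 1 ∧ ∃ c : L, c ≠ 0 ∧
                  ∀ j, τ (x j) = c * ∑ k, algebraMap ℚ L (T j k) * x k) := by
  have hgp : Pool.Agent.Y734.I.GP3 H := by
    classical
    intro i j k h1 h2 h3
    have hc : ({i, j, k} : Finset (Fin q)).card = 3 := by
      rw [Finset.card_insert_of_notMem (by simp [h1, h2]),
        Finset.card_insert_of_notMem (by simp [h3]), Finset.card_singleton]
    have h4 := hH {i, j, k} hc
    let f : Fin 3 → ({i, j, k} : Finset (Fin q)) :=
      ![⟨i, by simp⟩, ⟨j, by simp⟩, ⟨k, by simp⟩]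
    have hf : Function.Injective f := by
      intro a b hab
      have h5 : ((f a : ({i, j, k} : Finset (Fin q))) : Fin q) = f b := congrArg Subtype.val hab
      fin_cases a <;> fin_cases b <;> simp_all [f]
    have h6 := h4.comp f hf
    convert h6 using 1
    funext a
    fin_cases a <;> rfl
  by_cases h6 : q = 6 →
      LinearIndependent ℚ (fun i => fun jk : Fin 3 × Fin 3 => H i jk.1 * H i jk.2)
  · left
    have hqpu : Pool.Agent.Y734.I.QpuStmt := by
      intro q H hH
      have habs : Pool.Agent.Y734.B.AbsStmt2 :=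
        Pool.Agent.Y734.B.abs2 Pool.Agent.Y734.GROW.grow Pool.Agent.Y734.DIM.dim
          Pool.Agent.Y734.DIM.dim3
      have hyp : Pool.Agent.Y734.B.HypStmt2 :=
        Pool.Agent.Y734.HYP2.hyp2 (Pool.Agent.Y734.USST.usst Pool.Agent.TH551.SU.sst) habs
      obtain ⟨Λ, hΛ, h⟩ := Pool.Agent.Y734.B.top_of2 Pool.Agent.Y734.BR2.br2 hyp q H hH
      exact ⟨Λ, fun ℓ hℓ => (hΛ ℓ hℓ).1, h⟩
    have hfac := Pool.Agent.Y734.I.FAC.fac
    have hdet := Pool.Agent.Y734.I.FAC.det
    obtain ⟨𝒢, h𝒢, h⟩ := Pool.Agent.Y734.I.fin_main hqpu Pool.Agent.Y734.I.LG.lg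
      Pool.Agent.Y734.I.UE.ue (Pool.Agent.Y734.I.LIN5.lin5 Pool.Agent.Y734.I.UE.ue
        Pool.Agent.Y734.I.FAC.symeq) Pool.Agent.Y734.I.TOR.tor Pool.Agent.Y734.I.FAC.symeq
      (Pool.Agent.Y734.I.LINE.line hfac hdet) (Pool.Agent.Y734.I.SIZE.size hfac hdet)
      (Pool.Agent.Y734.I.TRI.tri hfac hdet (Pool.Agent.Y328.Cnc.con hfac hdet))
      (Pool.Agent.Y734.I.FINB.finb Pool.Agent.Y734.I.FINA.fina) hq hgp h6
    refine ⟨𝒢, fun G hG => ?_, fun S hS C => ?_⟩
    · obtain ⟨⟨d, hd, hdG⟩, hne, hat⟩ := h𝒢 G hG
      refine ⟨hne, ?_, fun p hp => ?_⟩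
      · rcases hd with rfl | rfl
        · exact Or.inl hdG
        · exact Or.inr hdG
      · refine hat p (fun k => (hp k).1) (fun k => (hp k).2.1) fun k => ?_
        obtain ⟨i, hi⟩ := (hp k).2.2
        exact ⟨i, (Pool.Agent.Y734.I.ev_lin (H i) (p k)).symm.trans hi⟩
    · obtain ⟨E, hE⟩ := h S hS C
      refine ⟨E, fun L _ _ hL x hx => ?_⟩
      rcases hE L hL x ⟨hx.ne_zero, fun F hF => absurd hF (Set.notMem_empty F), hx.off, hx.le⟩
        with h1 | h1
      · right
        intro σ
        exact h1 σ.toRatAlgHom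
      · exact Or.inl h1
  · right
    push Not at h6
    obtain ⟨h6, hdep⟩ := h6
    refine ⟨h6, hdep, fun S hS C => ?_⟩
    have hstep := Pool.Agent.Y734.I.STEP.step Pool.Agent.Y734.I.DM.dimq
    obtain ⟨d, Z, hZ1, hZ2, hZ⟩ := Pool.Agent.Y734.I.quad_main hstep Pool.Agent.Y734.I.NV.nv
      Pool.Agent.Y734.I.NV.red Pool.Agent.Y734.I.NV.mono Pool.Agent.Y734.I.IND.ind
      Pool.Agent.Y734.I.LG.lg Pool.Agent.Y734.I.GENS.gens Pool.Agent.Y734.I.UE.ue
      Pool.Agent.Y734.I.ALGA.alga Pool.Agent.Y734.I.ALGB.algb Pool.Agent.Y734.I.ALGC.algc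
      Pool.Agent.Y734.I.LGB.lgb hq hgp S hS C
    refine ⟨d, Z, hZ1, hZ2, fun L _ _ hL x hx hZx => ?_⟩
    obtain ⟨-, T, hT1, hT2, τ, hτ, c, hc, h⟩ :=
      hZ L hL x ⟨hx.ne_zero, fun F hF => absurd hF (Set.notMem_empty F), hx.off, hx.le⟩ hZx
    exact ⟨T, ⟨hT1, hT2⟩, τ, hτ, c, hc, h⟩

end Pool.Agent.Results.MP_71c16a_nt.QuadraticIntegralPoints
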