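import Mathlib
import Pool.Agent.Y734.N.Asm
import Pool.Agent.Y734.N.P5
import Pool.Agent.Y734.N.Sharp
import Pool.Agent.Y734.M.PAIR.Main
import Pool.Agent.Y734.M.KSIX.Main
import Pool.Agent.Y734.M.KSEV.Main
import Pool.Agent.Y734.M.INV.Main
import Pool.Agent.Y734.N.G5N.Main
import Pool.Agent.Y734.N.SUN.Main
import Pool.Agent.Y734.N.RE.Main
import Pool.Agent.Y734.N.FINS.Main
import Pool.Agent.Y734.N.SG.Main
import Pool.Agent.Y734.N.TOR.Main

/-!
# Quadratic integral points of the moduli spaces `M_{0,n}` over number fields

`X` is the Deligne–Mumford compactification of the moduli space `M_{0,n}` of `n` different points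
of the projective line, `D` its boundary (a divisor with normal crossings), `k` any number field,
`r = 2` and `S` any finite set of primes (the places of `k` above finitely many rational primes;
each finite set of places is contained in such a set). `X` has dimension `n - 3`, and `K_X + D` is
ample for `n ≥ 5`. The coordinate ring of `M_{0,n} = X ∖ D` over `ℤ` is generated by the cross ratios
of four of the points, which are units of this ring; so the `S`-integral points of `M_{0,n}` over
`L` are the `n`-tuples of points of `ℙ¹(L)`, up to projective linear transformations, for which all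
cross ratios of four different points are `S`-units.

We determine all infinite families of `S`-integral points of `M_{0,n}` over quadratic extensions
`L` of `k` (the field `L` varies with the point), for all `n ≥ 5`:

* for `n ≥ 7` there are only finitely many points;
* for `n = 6` all but finitely many points have an involution of the projective line which
  interchanges two pairs of the six points and fixes the other two, as `0, ∞, 1, -1, x, -x`;
* for `n = 5` all but finitely many points have such an involution, which interchanges two pairs of
  the points and fixes the fifth, or four of the points have a cross ratio in `k` (which is one of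
  the finitely many `t ∈ k` for which `t` and `1 - t` are `S`-units);
* for `n = 5, 6`, each `k` and `S = {2}` there are infinitely many points, for example those with
  `x ^ 2 = 2 ^ j x + 1`.

As `y² = ∏ (x - a_i)` has good reduction outside of `S` if the `a_i` are such a tuple and `2 ∈ S`,
this is a form of Shafarevich's theorem for hyperelliptic curves with rational Weierstrass points
which is uniform in the quadratic extension: such curves of genus at least three form finitely many
isomorphism classes over the algebraic numbers when `L` varies, and for genus two all but finitely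
many are the curves `y² = x (x² - 1) (x² - a²)`.

Proof. Let `P_i ∈ L²` be vectors for the points, and `u_ij` the norm of `det (P_i, P_j)` to `k`. The
matrix `(u_ij)` has rank at most four, and zeros on the diagonal; so for any five of the points the
`u_ij` satisfy the quintic equation `G5 = 0` with 22 terms (twelve pentagons, and ten unions of a
double edge and a triangle), which defines the image of `Sym² M_{0,5}` in the torus of the `u_ij`
(the Cayley–Menger cubic of four points in the plane). After a normalisation the `u_ij` are
`S`-units of `k`. If infinitely many points are given, the subspace theorem (for unit equations)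
shows that one of them lies in a family `u_ij z ^ (e_ij)` which satisfies all these equations, where
the weights `e_ij` are not trivial. Each of the 22 terms then has the same weight as another one. All
weights `e` on the edges of `K_5` with this property are determined (`PAIR`), up to the symmetries
there are seven rays and two planes; the equations for the coefficients exclude four rays and the
planes (`AlgB`), and show for the other three that four points have a cross ratio in `k` or that
there is an involution (`AlgA`, `eul`; for two quadratic families the coefficient equation is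
Euler's relation). All weights on the edges of `K_6` and `K_7` of which the restrictions to all
`K_5` are among these are determined (`KSIX`, `KSEV`): there are none on `K_7`, and for `K_6` two of
the involutions for five points interchange the same two pairs, and are equal. The searches are
verified by the kernel. Finally the norms `u_ij` determine the points up to finitely many
possibilities.
-/

set_option autoImplicit false

namespace Pool.Agent.Results.MP_71c16a_nt.QuadraticPointsModuli

variable {K : Type} [Field K] {n : ℕ}

/-- The determinant of two vectors of `K²`; it is different from zero if and only if they are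
homogeneous coordinates of two different points of the projective line. -/
def det2 (u v : Fin 2 → K) : K := u 0 * v 1 - u 1 * v 0

/-- The cross ratio of the points number `i, j, k, l`. -/
noncomputable def crossRatio (P : Fin n → Fin 2 → K) (i j k l : Fin n) : K :=
  det2 (P i) (P j) * det2 (P k) (P l) / (det2 (P i) (P k) * det2 (P j) (P l))

/-- `a` is an `S`-unit: a unit of the ring of those elements of `K` which become integral when they
are multiplied by a power of the product of the primes in `S`. -/
def IsSUnit (S : Finset ℕ) (a : K) : Prop :=
  a ≠ 0 ∧ ∃ m : ℕ, IsIntegral ℤ ((∏ p ∈ S, (p : K)) ^ m * a) ∧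
    IsIntegral ℤ ((∏ p ∈ S, (p : K)) ^ m * a⁻¹)

/-- `P` represents an `S`-integral point of `M_{0,n}` over `K`: the `n` points `P i` of the
projective line are different, and the cross ratio of any four of them is an `S`-unit. -/
structure IsIntegralPoint (S : Finset ℕ) (P : Fin n → Fin 2 → K) : Prop where
  distinct : ∀ i j, i ≠ j → det2 (P i) (P j) ≠ 0
  unit : ∀ f : Fin 4 → Fin n, Function.Injective f →
    IsSUnit S (crossRatio P (f 0) (f 1) (f 2) (f 3))

/-- Four of the points `P i` have a cross ratio in the subfield `k`. -/
def HasCrossRatioIn (k : Type) [Field k] [Algebra k K] (P : Fin n → Fin 2 → K) : Prop :=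
  ∃ f : Fin 4 → Fin n, Function.Injective f ∧
    ∃ q : k, crossRatio P (f 0) (f 1) (f 2) (f 3) = algebraMap k K q

/-- There is an involution `g` of the projective line (a matrix of trace zero) which interchanges
the points number `f 0, f 1`, interchanges the points number `f 2, f 3`, and fixes the other ones. -/
def HasInvolution (P : Fin n → Fin 2 → K) : Prop :=
  ∃ f : Fin 4 → Fin n, Function.Injective f ∧ ∃ g : Matrix (Fin 2) (Fin 2) K,
    g.trace = 0 ∧ g.det ≠ 0 ∧
      ∀ i, ∃ c : K, g.mulVec (P i) = c • P ((Equiv.swap (f 0) (f 1) * Equiv.swap (f 2) (f 3)) i)

/-- The `S`-integral points of `M_{0,n}` which are quadratic over `k`: the systems of the complex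
numbers `φ (crossRatio P i j l m)` for the `S`-integral points `P` over the extensions `L` of `k` of
degree two, and the embeddings `φ` of `L`. -/
def quadraticPoints (k : Type) [Field k] (n : ℕ) (S : Finset ℕ) :
    Set (Fin n → Fin n → Fin n → Fin n → ℂ) :=
  {c | ∃ (L : Type) (_ : Field L) (_ : NumberField L) (_ : Algebra k L) (P : Fin n → Fin 2 → L)
    (φ : L →+* ℂ), Module.finrank k L = 2 ∧ IsIntegralPoint S P ∧
      c = fun i j l m => φ (crossRatio P i j l m)}

/-- The quadratic `S`-integral points of `M_{0,n}` without those for which `n = 5` and four of the
points have a cross ratio in `k`, and without those for which `n ≤ 6` and there is an involution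
which interchanges two pairs of the points and fixes the others. -/
def nonexceptionalPoints (k : Type) [Field k] (n : ℕ) (S : Finset ℕ) :
    Set (Fin n → Fin n → Fin n → Fin n → ℂ) :=
  {c | ∃ (L : Type) (_ : Field L) (_ : NumberField L) (_ : Algebra k L) (P : Fin n → Fin 2 → L)
    (φ : L →+* ℂ), Module.finrank k L = 2 ∧ IsIntegralPoint S P ∧
      ¬ (n = 5 ∧ HasCrossRatioIn k P) ∧ ¬ (n ≤ 6 ∧ HasInvolution P) ∧
      c = fun i j l m => φ (crossRatio P i j l m)}

theorem finite (k : Type) [Field k] [NumberField k] (n : ℕ) (hn : 5 ≤ n) (S : Finset ℕ)
    (hS : ∀ p ∈ S, p.Prime) : (nonexceptionalPoints k n S).Finite := by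
  obtain ⟨m, rfl⟩ : ∃ m, n = m + 3 := ⟨n - 3, by omega⟩
  have h := Pool.Agent.Y734.N.main (Pool.Agent.Y734.N.TOR.tor Pool.Agent.Y734.N.SG.sg)
    (Pool.Agent.Y734.N.p5 Pool.Agent.Y734.M.PAIR.pair)
    Pool.Agent.Y734.M.KSIX.ksix Pool.Agent.Y734.M.KSEV.ksev
    (Pool.Agent.Y734.N.SUN.sun Pool.Agent.Y734.N.G5N.g5n)
    Pool.Agent.Y734.N.RE.rat Pool.Agent.Y734.N.RE.eul Pool.Agent.Y734.M.INV.inv
    Pool.Agent.Y734.N.FINS.fins k S hS m (by omega)
  refine h.subset ?_
  rintro c ⟨L, iF, iN, iA, P, φ, hL, hP, h5, h6, hc⟩
  refine ⟨L, iF, iN, iA, P, φ, hL, ⟨hP.distinct, hP.unit⟩, ?_, hc⟩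
  rintro (h | h)
  · exact h5 h
  · exact h6 h

/-- Quadratic `S`-integral points of `M_{0,n}` over a number field `k`, for all `n ≥ 5`: all but
finitely many are exceptional, for all finite sets `S` of primes; and there are only finitely many,
for all finite sets `S` of primes, if and only if `n ≥ 7`. -/
theorem result (k : Type) [Field k] [NumberField k] (n : ℕ) (hn : 5 ≤ n) :
    (∀ S : Finset ℕ, (∀ p ∈ S, p.Prime) → (nonexceptionalPoints k n S).Finite) ∧
      ((∀ S : Finset ℕ, (∀ p ∈ S, p.Prime) → (quadraticPoints k n S).Finite) ↔ 7 ≤ n) := by
  refine ⟨finite k n hn, fun h => ?_, fun h S hS => ?_⟩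
  · by_contra h7
    refine (Pool.Agent.Y734.N.sharp k n hn (by omega)).mono ?_ (h {2} (by simp [Nat.prime_two]))
    rintro c ⟨L, iF, iN, iA, P, φ, hL, hP, hc⟩
    exact ⟨L, iF, iN, iA, P, φ, hL, ⟨hP.1, hP.2⟩, hc⟩
  · refine (finite k n hn S hS).subset ?_
    rintro c ⟨L, iF, iN, iA, P, φ, hL, hP, hc⟩
    exact ⟨L, iF, iN, iA, P, φ, hL, hP, fun h5 => by omega, fun h6 => by omega, hc⟩

end Pool.Agent.Results.MP_71c16a_nt.QuadraticPointsModuli
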